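import Pool.Agent.NNe.Chk
import Pool.Agent.NNe.Slots

set_option linter.all false
set_option maxRecDepth 1000000
namespace Pool.Agent.NNr.R11_6_13_14

open Pool.Agent.NNe

noncomputable def SI0_0 : Nat := (nat_lit 0xc030080200802004010040100401004000000000000)
noncomputable def SW0_0 : Nat := (nat_lit 0x160040050024010003008803c01c00d00380180040100060014002000)
noncomputable def RV0_0 : Nat := (nat_lit 0x880ab08801408802b18201e10000808803208805308804518202510000d20400e18202808804a08807008807b088083204000182000)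
noncomputable def CO0_0 : Nat := (nat_lit 0x297840290c40255840255810255800251c4016ac40166440166410166400156820156810152c4012b04012744011784011002011001)
noncomputable def Y0_0_0_1 : Nat := (nat_lit 0xe00000000200000000380000000080000000fe00000003200000003480000000000000000f6000000032)
noncomputable def Y0_0_2_3 : Nat := (nat_lit 0x180000000080000000060000000020000000018000000000000000006000000000)
noncomputable def C0_0 : Cd := (Cd.mk (nat_lit 18) (nat_lit 5) (nat_lit 320) SI0_0 SW0_0 RV0_0 CO0_0 (Sl.cons (Sd.mk (nat_lit 4) (nat_lit 4) (nat_lit 0) (nat_lit 5) (Sb.cons (nat_lit 4) (nat_lit 0) (nat_lit 3) (Sb.cons (nat_lit 8) (nat_lit 3) (nat_lit 2) Sb.nil)) (Bl.r Y0_0_0_1 (nat_lit 1) Bl.nil)) (Sl.cons (Sd.mk (nat_lit 5) (nat_lit 4) (nat_lit 5) (nat_lit 7) (Sb.cons (nat_lit 4) (nat_lit 0) (nat_lit 3) (Sb.cons (nat_lit 8) (nat_lit 3) (nat_lit 4) Sb.nil)) (Bl.c Y0_0_0_1 (nat_lit 10) (nat_lit 0) Bl.nil)) (Sl.cons (Sd.mk (nat_lit 9) (nat_lit 8) (nat_lit 12) (nat_lit 4) (Sb.cons (nat_lit 4) (nat_lit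 0) (nat_lit 4) Sb.nil) (Bl.r Y0_0_2_3 (nat_lit 3) Bl.nil)) (Sl.cons (Sd.mk (nat_lit 10) (nat_lit 8) (nat_lit 16) (nat_lit 2) (Sb.cons (nat_lit 4) (nat_lit 0) (nat_lit 2) Sb.nil) (Bl.c Y0_0_2_3 (nat_lit 8) (nat_lit 2) Bl.nil)) Sl.nil)))))
noncomputable def SI0_1 : Nat := (nat_lit 0x1405014050140501405014040100401004010040100400c0300c0300c0300c0300c02008020080200802008010040100401004010040100000000000000000000)
noncomputable def SW0_1 : Nat := (nat_lit 0x1980c805402100c004001e00e00380c4052028010007c03c0170068018060027013009403a01c00b003000a02f012006c02a014005801000602e01680b004601a009802801200201580880320120088020002000)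
noncomputable def RV0_1 : Nat := (nat_lit 0x2040061820090880a40880ac08801508800e20400918200e08801108803d18201c10000608802c18201f10000908803308803a08802f08805408804618202610000e20400f18202908804b08805108804808807108807c08808420400118200108808a08800018200308805a20401218202c0880a00880a808806120401618203208805f08806c08807708808088801e982011088087982014900000)
noncomputable def CO0_1 : Nat := (nat_lit 0x2a80202a80102a7440297840290c40288840288820288810280c40269c40265410265400255840255810255800251c40249c40241c4016ac40166440166410166400156820156810152c4014ac40142c4012b04012744011784011002011001010b8401004401004100aa0400aa0200aa0100a7440097840092c4008a82008a810082c4002b04002744001784001104001101000b84000141000140)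
noncomputable def Y0_1_1_0 : Nat := (nat_lit 0x1fe00000000000000007a00000000400000001ea00000000100000007f80000000040000001fe00000000100000007f80000000000000001e000000001000000007800000000000000001f0000000000)
noncomputable def Y0_1_2_3 : Nat := (nat_lit 0xff80000000000000003fe0000000000000000f180000000000000003060000001830000000d180000000000000003fe0000000000000000ff80000000c000000034e000000000)
noncomputable def Y0_1_4_5 : Nat := (nat_lit 0x7e00000000000000001c800000000000000007600000000a0000000ff80000000000000000f200000000000000007d80000000280000003fe0000000000000000ff80000000000000003fe000000000)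
noncomputable def C0_1 : Cd := (Cd.mk (nat_lit 52) (nat_lit 6) (nat_lit 546) SI0_1 SW0_1 RV0_1 CO0_1 (Sl.cons (Sd.mk (nat_lit 0) (nat_lit 0) (nat_lit 0) (nat_lit 8) (Sb.cons (nat_lit 0) (nat_lit 0) (nat_lit 3) (Sb.cons (nat_lit 4) (nat_lit 3) (nat_lit 3) (Sb.cons (nat_lit 8) (nat_lit 6) (nat_lit 2) Sb.nil))) (Bl.c Y0_1_1_0 (nat_lit 18) (nat_lit 1) Bl.nil)) (Sl.cons (Sd.mk (nat_lit 2) (nat_lit 0) (nat_lit 8) (nat_lit 9) (Sb.cons (nat_lit 0) (nat_lit 0) (nat_lit 3) (Sb.cons (nat_lit 4) (nat_lit 3) (nat_lit 2) (Sb.cons (nat_lit 8) (nat_lit 5) (nat_lit 4) Sb.nil))) (Bl.r Y0_1_1_0 (nat_lit 0) Bl.nil)) (Sl.cons (Sd.mk (nat_lit 4) (nat_lit 4) (nat_lit 17) (nat_lit 8) (Sb.cons (nat_lit 0) (nat_lit 0) (nat_lit 3) (Sb.cons (nat_lit 4) (nat_lit 3) (nat_lit 3) (Sb.cons (nat_lit 8) (nat_lit 6) (nat_lit 2) Sb.nil))) (Bl.r Y0_1_2_3 (nat_lit 3) Bl.nil)) (Sl.cons (Sd.mk (nat_lit 5) (nat_lit 4) (nat_lit 25) (nat_lit 9) (Sb.cons (nat_lit 0) (nat_lit 0) (nat_lit 2) (Sb.cons (nat_lit 4) (nat_lit 2) (nat_lit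 3) (Sb.cons (nat_lit 8) (nat_lit 5) (nat_lit 4) Sb.nil))) (Bl.c Y0_1_2_3 (nat_lit 16) (nat_lit 2) Bl.nil)) (Sl.cons (Sd.mk (nat_lit 9) (nat_lit 8) (nat_lit 34) (nat_lit 9) (Sb.cons (nat_lit 0) (nat_lit 0) (nat_lit 2) (Sb.cons (nat_lit 4) (nat_lit 2) (nat_lit 4) (Sb.cons (nat_lit 8) (nat_lit 6) (nat_lit 3) Sb.nil))) (Bl.r Y0_1_4_5 (nat_lit 5) Bl.nil)) (Sl.cons (Sd.mk (nat_lit 10) (nat_lit 8) (nat_lit 43) (nat_lit 9) (Sb.cons (nat_lit 0) (nat_lit 0) (nat_lit 4) (Sb.cons (nat_lit 4) (nat_lit 4) (nat_lit 2) (Sb.cons (nat_lit 8) (nat_lit 6) (nat_lit 3) Sb.nil))) (Bl.c Y0_1_4_5 (nat_lit 18) (nat_lit 4) Bl.nil)) Sl.nil)))))))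
noncomputable def SI0_2 : Nat := (nat_lit 0xc0300c0300c0300c020080200802004010040100401004000000000000)
noncomputable def SW0_2 : Nat := (nat_lit 0xb805802000b0050024008015007803801000300a004c02400d00380180040110060014002000)
noncomputable def RV0_2 : Nat := (nat_lit 0x20400718200a0880a508800f20400a18200f08801208803e18201d10000708803b08803008805b20401318202d0880a120401718203308806008806d088078088088982015900001)
noncomputable def CO0_2 : Nat := (nat_lit 0x2a80202a80102a7440288840288820288810280c40269c40265410265400249c40241c400aa0400aa0200aa0100a744008a82008a810082c4002b04002744000b84000141000140)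
noncomputable def Y0_2_1_0 : Nat := (nat_lit 0x3e00000001e000000000000000000000000003800000000000000000f800000000000000000000000000000000000e000000000000000003e00000001e)
noncomputable def Y0_2_2_3 : Nat := (nat_lit 0x7600000003a00000000c800000002400000003200000000000000001d80000000e800000007600000003a)
noncomputable def C0_2 : Cd := (Cd.mk (nat_lit 24) (nat_lit 7) (nat_lit 772) SI0_2 SW0_2 RV0_2 CO0_2 (Sl.cons (Sd.mk (nat_lit 0) (nat_lit 0) (nat_lit 0) (nat_lit 5) (Sb.cons (nat_lit 0) (nat_lit 0) (nat_lit 3) (Sb.cons (nat_lit 8) (nat_lit 3) (nat_lit 2) Sb.nil)) (Bl.c Y0_2_1_0 (nat_lit 14) (nat_lit 1) Bl.nil)) (Sl.cons (Sd.mk (nat_lit 2) (nat_lit 0) (nat_lit 5) (nat_lit 7) (Sb.cons (nat_lit 0) (nat_lit 0) (nat_lit 3) (Sb.cons (nat_lit 8) (nat_lit 3) (nat_lit 4) Sb.nil)) (Bl.r Y0_2_1_0 (nat_lit 0) Bl.nil)) (Sl.cons (Sd.mk (nat_lit 9) (nat_lit 8) (nat_lit 12) (nat_lit 5) (Sb.cons (nat_lit 0) (nat_lit 0) (nat_lit 2) (Sb.cons (nat_lit 8) (nat_lit 2) (nat_lit 3) Sb.nil)) (Bl.r Y0_2_2_3 (nat_lit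 3) Bl.nil)) (Sl.cons (Sd.mk (nat_lit 10) (nat_lit 8) (nat_lit 17) (nat_lit 7) (Sb.cons (nat_lit 0) (nat_lit 0) (nat_lit 4) (Sb.cons (nat_lit 8) (nat_lit 4) (nat_lit 3) Sb.nil)) (Bl.c Y0_2_2_3 (nat_lit 10) (nat_lit 2) Bl.nil)) Sl.nil)))))
noncomputable def C0_3 : Cd := (Cd.mk (nat_lit 0) (nat_lit 11) (nat_lit 11) (nat_lit 0) (nat_lit 0) (nat_lit 0) (nat_lit 0) Sl.nil)
noncomputable def SI0_4 : Nat := (nat_lit 0x2008020080200802008020080200802008020080200802008020080200801c0701c0701c0701c0701c0701c07018060180601806018060180601806018060180601806018060180601806018060180601806018060180601806014050140501405014050140501405014050140501404010040100401004010040100401004010040100401004010040100400c0300c0300c0300c0300c0300c0300c0300c0300c0300c0300c0300c0300c020080200802008020080200802004010040100401004010040100401004010040100401004000000000000000000000000000)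
noncomputable def SW0_4 : Nat := (nat_lit 0xd206802b01600aa054029815c0a405101f810407c03d02000f007603a014009c03a01c00500240ce066028013c072038013009403601a004001c0c606503101840c806002f813009c04b025013409204801a80dc06803301900d8062030017809004601700c805802a01400c004c02401100300141620b004c8260118089046822c11408804380b804401000780380080ae05502bc15a0ac05582a415009704b0214104086042020c10208001680b0056021006800c14c0a305382941480a2050828012a09403f01e80fe07d03e01ec0f207803b817808e046022803000409f04f024c12407603a817408800b000800013a09c04882400e606f03a01c80e207003701b40d805c02d816808602a010026c13408f04701ac0d405902100a403e01e)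
noncomputable def RV0_4 : Nat := (nat_lit 0x8806908801d0880a708806708805e18203010001108801b08800c18200c0880af08806620401518203108801a08800d20400818200d08806508801908806808801c08806408801808805808804108805008803908804f08803808804e08803708805708804008804d08803608807488802888802098201308800a20400218200208807f88802698201690000208800808800218200508808688802588802198201790000308800708800320400318200688802408800608808d8880278880229820189000040880090880042040041820078880230880050880b108809d0880ae0880a608809f08809b08801708800b18200b2040051820080880ad08801608801020400b18201008801308809908809108803f08802e18202110000b08802a18201a08809708809508809308808f08803518201b10000508802918201908802d18202010000a08803408803c08803108809808809008805620401018202a08804320400d18202308809608809408809208808e08804c08804418202410000c08804220400c18202208805508804718202710000f08805208804908808c08807308808508807e08807608806b08807208807d08808b0880011820040880b008809c0880aa0880a308809e08809a08806308805d18202f10001008805920401118202b08805c20401418202e0880a20880a908806208808908806f08808208807a08807508806a08806e08807908808188801f982012)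
noncomputable def CO0_4 : Nat := (nat_lit 0x3aac403a8c403a74403a6c403a64403a64103a64003a4c403a44403a4410397840396c40396820396810394c40394840394820394810392c40390c4038ac40388c40382c40380c4036ac40369c40366c40365c40356c40355c40352c40351c4034ac40349c40342c40341c4032b040329c40329040329010328c40328020328010327440325c40325410325400324c40324440324410317840315c40315840315810315800314c40314840314820314810311c40310c4030b840309c40309840309810309800308c40308840308820308810301c40300c402bb8402bb0402b78402b74402b34402b30402b0c402b04402b04102b00202b0010297840290c40288840288820288810280c4027b84027b040279c40279840279810279800279040279010277840277440273440273040271c40271410271400271040271010255840255810255800251c40249c40241c4017b84017b04017ac4017a82017a81017a04017a02017a010177840177440173440173040172c4017244017241017240017204017202017201016ac4016644016641016640014ac40142c4013b84013b04013784013744013344013304012b04012744010b8401004401004100bb8400bb0400b78400b74400b34400b30400b2c400b24400b24100b24000b20400b20200b20100aa0400aa0200aa0100a7440097840092c4003b84003b04003784003744003344003304002b04002744001784001104001101)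
noncomputable def Y0_4_1_0 : Nat := (nat_lit 0x3e00000000200000000f800000007c00000003e00000000200000000f800000007400000003e00000001d00000000f800000007c00000003e00000000000000000f800000000000000003e00000000000000000f800000000000000003e00000000000000000f800000000400000003e0000000000000003f38000000000000000fce0000007e10000003f38000001f80000000fce0000002e00000003fc0000000b80000000ff0000000000)
noncomputable def Y0_4_2_3 : Nat := (nat_lit 0x7e00000003700000001f80000000dc00000007e00000003700000001f80000000dc00000007e00000003700000001f80000000dc003ffff86000240080000ffffe18000900200003fffff8000240080000fffffe0000900200003fffff8000240080)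
noncomputable def Y0_4_4_5 : Nat := (nat_lit 0x7e00000000000000001f800000000000000007e00000000000000001f800000001000000007e00000000400000001f800000000000000007e00000000400000001f800000001000000007e00000000000000001f800000000000000007e00000000000000001f800000000000000007e00000000000000001f800000000000000007e00000000000000001f800000001000000007e00000000400000ffe7800000021000003ff9e00000008400000ffe7800007e00000003ff9e00000000000000fff8000000000000003ffe0000000000)
noncomputable def Y0_4_6_6 : Nat := (nat_lit 0x80901000000000000000000000000000000000000000000000000000000000000000000001f0be100002805000002024040001012020000809010000000000000202404000000000000000000000000000000000000000000000000000000000000000000007c2f840000a01400000809010000404808000202404000000000204000101000000000000000000000000000000000000000000000000000000000000000000000000000000000001e3c000f842020001402040001011020000808810000404408000202204000101000000000000000000000000000078f0003e108080005008102020000000000000000000000000000000000000000000000000000000000000000000000000000000000000078f1f0800080828000081020200040810100020408080010204040008102020000000000000000000000000000001e3c7c20002020a0000)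
noncomputable def Y0_4_7_7 : Nat := (nat_lit 0x15400000000000000000000000000000000001540000000000000000000000000000000001414000000000000000000000000000000000141400000000000000000000000000000000015400000000000000000000000000000000001540000000000)
noncomputable def Y0_4_8_8 : Nat := (nat_lit 0x11ea800000050000000000000000000000000010a80000000000000047aa00000014000000010a800000000000000042a00000000000000010a800000085400000000000000000000000000000000000000000000000000000000002080028000000000000c3800a00000c000000208002800104001400082000a0000000000000000000000000000000000000000000000000000000000000000000000000000000000000030e002800003000000000000000000000000030f1e8000003050000000000000000000000030f1e80000030500000000000000000000)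
noncomputable def C0_4 : Cd := (Cd.mk (nat_lit 178) (nat_lit 4) (nat_lit 4369) SI0_4 SW0_4 RV0_4 CO0_4 (Sl.cons (Sd.mk (nat_lit 0) (nat_lit 0) (nat_lit 0) (nat_lit 11) (Sb.cons (nat_lit 4) (nat_lit 0) (nat_lit 3) (Sb.cons (nat_lit 8) (nat_lit 3) (nat_lit 2) (Sb.cons (nat_lit 12) (nat_lit 5) (nat_lit 6) Sb.nil))) (Bl.c Y0_4_1_0 (nat_lit 38) (nat_lit 1) Bl.nil)) (Sl.cons (Sd.mk (nat_lit 2) (nat_lit 0) (nat_lit 11) (nat_lit 19) (Sb.cons (nat_lit 4) (nat_lit 0) (nat_lit 2) (Sb.cons (nat_lit 8) (nat_lit 2) (nat_lit 4) (Sb.cons (nat_lit 12) (nat_lit 6) (nat_lit 13) Sb.nil))) (Bl.r Y0_4_1_0 (nat_lit 0) Bl.nil)) (Sl.cons (Sd.mk (nat_lit 4) (nat_lit 4) (nat_lit 30) (nat_lit 11) (Sb.cons (nat_lit 0) (nat_lit 0) (nat_lit 3) (Sb.cons (nat_lit 8) (nat_lit 3) (nat_lit 2) (Sb.cons (nat_lit 12) (nat_lit 5) (nat_lit 6) Sb.nil))) (Bl.r Y0_4_2_3 (nat_lit 3) Bl.nil)) (Sl.cons (Sd.mk (nat_lit 5) (nat_lit 4) (nat_lit 41) (nat_lit 25) (Sb.cons (nat_lit 0) (nat_lit 0) (nat_lit 2) (Sb.cons (nat_lit 8) (nat_lit 2)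 (nat_lit 4) (Sb.cons (nat_lit 12) (nat_lit 6) (nat_lit 19) Sb.nil))) (Bl.c Y0_4_2_3 (nat_lit 22) (nat_lit 2) Bl.nil)) (Sl.cons (Sd.mk (nat_lit 9) (nat_lit 8) (nat_lit 66) (nat_lit 23) (Sb.cons (nat_lit 0) (nat_lit 0) (nat_lit 2) (Sb.cons (nat_lit 4) (nat_lit 2) (nat_lit 4) (Sb.cons (nat_lit 12) (nat_lit 6) (nat_lit 17) Sb.nil))) (Bl.r Y0_4_4_5 (nat_lit 5) Bl.nil)) (Sl.cons (Sd.mk (nat_lit 10) (nat_lit 8) (nat_lit 89) (nat_lit 17) (Sb.cons (nat_lit 0) (nat_lit 0) (nat_lit 4) (Sb.cons (nat_lit 4) (nat_lit 4) (nat_lit 2) (Sb.cons (nat_lit 12) (nat_lit 6) (nat_lit 11) Sb.nil))) (Bl.c Y0_4_4_5 (nat_lit 46) (nat_lit 4) Bl.nil)) (Sl.cons (Sd.mk (nat_lit 12) (nat_lit 12) (nat_lit 106) (nat_lit 36) (Sb.cons (nat_lit 0) (nat_lit 0) (nat_lit 11) (Sb.cons (nat_lit 4) (nat_lit 11) (nat_lit 11) (Sb.cons (nat_lit 8) (nat_lit 22) (nat_lit 14) Sb.nil))) (Bl.r Y0_4_6_6 (nat_lit 6) (Bl.c Y0_4_6_6 (nat_lit 72) (nat_lit 6) Bl.nil))) (Sl.cons (Sd.mk (nat_lit 13) (nat_lit 12) (nat_lit 142) (nat_lit 12) (Sb.cons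 (nat_lit 0) (nat_lit 0) (nat_lit 4) (Sb.cons (nat_lit 4) (nat_lit 4) (nat_lit 4) (Sb.cons (nat_lit 8) (nat_lit 8) (nat_lit 4) Sb.nil))) (Bl.r Y0_4_7_7 (nat_lit 7) (Bl.c Y0_4_7_7 (nat_lit 24) (nat_lit 7) Bl.nil))) (Sl.cons (Sd.mk (nat_lit 14) (nat_lit 12) (nat_lit 154) (nat_lit 24) (Sb.cons (nat_lit 0) (nat_lit 0) (nat_lit 4) (Sb.cons (nat_lit 4) (nat_lit 4) (nat_lit 10) (Sb.cons (nat_lit 8) (nat_lit 14) (nat_lit 10) Sb.nil))) (Bl.r Y0_4_8_8 (nat_lit 8) (Bl.c Y0_4_8_8 (nat_lit 48) (nat_lit 8) Bl.nil))) Sl.nil))))))))))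
noncomputable def CL0 : Cl := (Cl.cons C0_0 (Cl.cons C0_1 (Cl.cons C0_2 (Cl.cons C0_3 (Cl.cons C0_4 Cl.nil)))))
noncomputable def ZL0_0 : Zl := (Zl.cons (nat_lit 0) (nat_lit 0) (nat_lit 5) (Zl.cons (nat_lit 17) (nat_lit 5) (nat_lit 8) (Zl.cons (nat_lit 0) (nat_lit 0) (nat_lit 0) (Zl.cons (nat_lit 0) (nat_lit 0) (nat_lit 0) (Zl.cons (nat_lit 30) (nat_lit 13) (nat_lit 11) Zl.nil)))))
noncomputable def ZZ0 : ZZ := (ZZ.cons ZL0_0 ZZ.nil)
noncomputable def SI1_0 : Nat := (nat_lit 0x8020040100400)
noncomputable def SW1_0 : Nat := (nat_lit 0x60020028010002000)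
noncomputable def RV1_0 : Nat := (nat_lit 0x8801618200908801a18200a18200b182000)
noncomputable def CO1_0 : Nat := (nat_lit 0x25584025581016644016641015681011001)
noncomputable def Y1_0_0_1 : Nat := (nat_lit 0xe000)
noncomputable def C1_0 : Cd := (Cd.mk (nat_lit 6) (nat_lit 5) (nat_lit 320) SI1_0 SW1_0 RV1_0 CO1_0 (Sl.cons (Sd.mk (nat_lit 4) (nat_lit 4) (nat_lit 0) (nat_lit 1) (Sb.cons (nat_lit 4) (nat_lit 0) (nat_lit 1) Sb.nil) (Bl.r Y1_0_0_1 (nat_lit 1) Bl.nil)) (Sl.cons (Sd.mk (nat_lit 5) (nat_lit 4) (nat_lit 1) (nat_lit 3) (Sb.cons (nat_lit 4) (nat_lit 0) (nat_lit 1) (Sb.cons (nat_lit 8) (nat_lit 1) (nat_lit 2) Sb.nil)) (Bl.c Y1_0_0_1 (nat_lit 2) (nat_lit 0) Bl.nil)) (Sl.cons (Sd.mk (nat_lit 9) (nat_lit 8) (nat_lit 4) (nat_lit 2) (Sb.cons (nat_lit 4) (nat_lit 0) (nat_lit 2) Sb.nil) Bl.nil) Sl.nil))))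
noncomputable def SI1_1 : Nat := (nat_lit 0x50100400c0300c02008010040100000)
noncomputable def SW1_1 : Nat := (nat_lit 0x40058024014008001801800200c003800800a000)
noncomputable def RV1_1 : Nat := (nat_lit 0x18200410000110000210000420400708801d20400008800018200c08803820400c88800e900000)
noncomputable def CO1_1 : Nat := (nat_lit 0x28881026540025580016640015682014ac401100201004400aa01009784008a82001104000140)
noncomputable def Y1_1_1_0 : Nat := (nat_lit 0x20000008000004000)
noncomputable def Y1_1_2_3 : Nat := (nat_lit 0x800000c000)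
noncomputable def Y1_1_4_5 : Nat := (nat_lit 0x8000002000)
noncomputable def C1_1 : Cd := (Cd.mk (nat_lit 13) (nat_lit 6) (nat_lit 546) SI1_1 SW1_1 RV1_1 CO1_1 (Sl.cons (Sd.mk (nat_lit 0) (nat_lit 0) (nat_lit 0) (nat_lit 2) (Sb.cons (nat_lit 0) (nat_lit 0) (nat_lit 1) (Sb.cons (nat_lit 4) (nat_lit 1) (nat_lit 1) Sb.nil)) (Bl.c Y1_1_1_0 (nat_lit 6) (nat_lit 1) Bl.nil)) (Sl.cons (Sd.mk (nat_lit 2) (nat_lit 0) (nat_lit 2) (nat_lit 3) (Sb.cons (nat_lit 0) (nat_lit 0) (nat_lit 1) (Sb.cons (nat_lit 4) (nat_lit 1) (nat_lit 1) (Sb.cons (nat_lit 8) (nat_lit 2) (nat_lit 1) Sb.nil))) (Bl.r Y1_1_1_0 (nat_lit 0) Bl.nil)) (Sl.cons (Sd.mk (nat_lit 4) (nat_lit 4) (nat_lit 5) (nat_lit 2) (Sb.cons (nat_lit 0) (nat_lit 0) (nat_lit 1) (Sb.cons (nat_lit 4) (nat_lit 1) (nat_lit 1) Sb.nil)) (Bl.r Y1_1_2_3 (nat_lit 3) Bl.nil)) (Sl.cons (Sd.mk (nat_lit 5) (nat_lit 4) (nat_lit 7) (nat_lit 3) (Sb.cons (nat_lit 0) (nat_lit 0) (nat_lit 1) (Sb.cons (nat_lit 4) (nat_lit 1) (nat_lit 1) (Sb.cons (nat_lit 8) (nat_lit 2)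 (nat_lit 1) Sb.nil))) (Bl.c Y1_1_2_3 (nat_lit 4) (nat_lit 2) Bl.nil)) (Sl.cons (Sd.mk (nat_lit 9) (nat_lit 8) (nat_lit 10) (nat_lit 2) (Sb.cons (nat_lit 4) (nat_lit 0) (nat_lit 1) (Sb.cons (nat_lit 8) (nat_lit 1) (nat_lit 1) Sb.nil)) (Bl.r Y1_1_4_5 (nat_lit 5) Bl.nil)) (Sl.cons (Sd.mk (nat_lit 10) (nat_lit 8) (nat_lit 12) (nat_lit 1) (Sb.cons (nat_lit 0) (nat_lit 0) (nat_lit 1) Sb.nil) (Bl.c Y1_1_4_5 (nat_lit 4) (nat_lit 4) Bl.nil)) Sl.nil)))))))
noncomputable def SI1_2 : Nat := (nat_lit 0x300c0300c0200802004010000000000)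
noncomputable def SW1_2 : Nat := (nat_lit 0xc004001400600b00380080140010048018008000)
noncomputable def RV1_2 : Nat := (nat_lit 0x18200208803708800808800908801918200808801808801f08802008802708802c08802e982006)
noncomputable def CO1_2 : Nat := (nat_lit 0x2a80102a7440288840280c40269c40265410241c400aa040082c4002b04002744000b84000141)
noncomputable def Y1_2_1_0 : Nat := (nat_lit 0x7803c01e00f)
noncomputable def Y1_2_2_3 : Nat := (nat_lit 0x1c006001800c01c006)
noncomputable def C1_2 : Cd := (Cd.mk (nat_lit 13) (nat_lit 7) (nat_lit 772) SI1_2 SW1_2 RV1_2 CO1_2 (Sl.cons (Sd.mk (nat_lit 0) (nat_lit 0) (nat_lit 0) (nat_lit 4) (Sb.cons (nat_lit 0) (nat_lit 0) (nat_lit 2) (Sb.cons (nat_lit 8) (nat_lit 2) (nat_lit 2) Sb.nil)) (Bl.c Y1_2_1_0 (nat_lit 4) (nat_lit 1) Bl.nil)) (Sl.cons (Sd.mk (nat_lit 2) (nat_lit 0) (nat_lit 4) (nat_lit 2) (Sb.cons (nat_lit 0) (nat_lit 0) (nat_lit 1) (Sb.cons (nat_lit 8) (nat_lit 1) (nat_lit 1) Sb.nil)) (Bl.r Y1_2_1_0 (nat_lit 0) Bl.nil)) (Sl.cons (Sd.mk (nat_lit 9) (nat_lit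 8) (nat_lit 6) (nat_lit 3) (Sb.cons (nat_lit 0) (nat_lit 0) (nat_lit 1) (Sb.cons (nat_lit 8) (nat_lit 1) (nat_lit 2) Sb.nil)) (Bl.r Y1_2_2_3 (nat_lit 3) Bl.nil)) (Sl.cons (Sd.mk (nat_lit 10) (nat_lit 8) (nat_lit 9) (nat_lit 4) (Sb.cons (nat_lit 0) (nat_lit 0) (nat_lit 2) (Sb.cons (nat_lit 8) (nat_lit 2) (nat_lit 2) Sb.nil)) (Bl.c Y1_2_2_3 (nat_lit 6) (nat_lit 2) Bl.nil)) Sl.nil)))))
noncomputable def C1_3 : Cd := (Cd.mk (nat_lit 0) (nat_lit 11) (nat_lit 11) (nat_lit 0) (nat_lit 0) (nat_lit 0) (nat_lit 0) Sl.nil)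
noncomputable def SI1_4 : Nat := (nat_lit 0x1c0701c0701c0701c0701c0701c06018060180601806018060180601805014050140501404010040100400c0300c0300c0300802008020080200401004010040100400000000000000000)
noncomputable def SW1_4 : Nat := (nat_lit 0x12008c03c01d00c804c02400d006001800a0220108080038018008804001600a004801000603b01d00c005e02e00400e407002d00b805806e02c00d806800e00201b00d405602a000800006803301480a004e01f00a80c8062026012805001e00e)
noncomputable def RV1_4 : Nat := (nat_lit 0x8802408800d08800718200320400b08802208800b08802308800c08802108800a88801308800620400108800220400288801108800488801208800520400388801008800308803b08803408803608803220400420400508801518200708801408801710000320400820400608801b10000508801e08801c08803008802908802b08802608800118200108803a08803308803508803120400920400a08803908802f08802808802a08802508802d88800f982005)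
noncomputable def CO1_4 : Nat := (nat_lit 0x3aac403a8c403a44403a4410396820392c40390c4038ac40388c40382c40380c40329c40328c40328020324440314820311c40310c40309c40308c40308820301c40300c402bb8402bb0402b34402b30402b002028882027904027901027104025584025580017a82017202016644016640014ac40142c4013b84013b0401334401330401004401004100bb8400bb0400b34400b30400b20200aa02009784003b84003b04003344003304001784001104001101)
noncomputable def Y1_4_1_0 : Nat := (nat_lit 0x4000003800000a000003800000200003c8000070000)
noncomputable def Y1_4_2_3 : Nat := (nat_lit 0x7800001e000007800001e0000180000060000)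
noncomputable def Y1_4_4_5 : Nat := (nat_lit 0x200000080000020000018000078000)
noncomputable def Y1_4_6_6 : Nat := (nat_lit 0x2900000a40004090000000000000000000000000000010800000000000000000)
noncomputable def Y1_4_7_7 : Nat := (nat_lit 0x40a0000c000000000000c000000000000c00000000000)
noncomputable def C1_4 : Cd := (Cd.mk (nat_lit 60) (nat_lit 4) (nat_lit 4369) SI1_4 SW1_4 RV1_4 CO1_4 (Sl.cons (Sd.mk (nat_lit 0) (nat_lit 0) (nat_lit 0) (nat_lit 7) (Sb.cons (nat_lit 4) (nat_lit 0) (nat_lit 3) (Sb.cons (nat_lit 12) (nat_lit 3) (nat_lit 4) Sb.nil)) (Bl.c Y1_4_1_0 (nat_lit 14) (nat_lit 1) Bl.nil)) (Sl.cons (Sd.mk (nat_lit 2) (nat_lit 0) (nat_lit 7) (nat_lit 7) (Sb.cons (nat_lit 4) (nat_lit 0) (nat_lit 1) (Sb.cons (nat_lit 8) (nat_lit 1) (nat_lit 1) (Sb.cons (nat_lit 12) (nat_lit 2) (nat_lit 5) Sb.nil))) (Bl.r Y1_4_1_0 (nat_lit 0) Bl.nil)) (Sl.cons (Sd.mk (nat_lit 4) (nat_lit 4) (nat_lit 14) (nat_lit 6) (Sb.cons (nat_lit 0) (nat_lit 0) (nat_lit 2) (Sb.cons (nat_lit 12) (nat_lit 2) (nat_lit 4)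 Sb.nil)) (Bl.r Y1_4_2_3 (nat_lit 3) Bl.nil)) (Sl.cons (Sd.mk (nat_lit 5) (nat_lit 4) (nat_lit 20) (nat_lit 6) (Sb.cons (nat_lit 0) (nat_lit 0) (nat_lit 2) (Sb.cons (nat_lit 8) (nat_lit 2) (nat_lit 2) (Sb.cons (nat_lit 12) (nat_lit 4) (nat_lit 2) Sb.nil))) (Bl.c Y1_4_2_3 (nat_lit 12) (nat_lit 2) Bl.nil)) (Sl.cons (Sd.mk (nat_lit 9) (nat_lit 8) (nat_lit 26) (nat_lit 5) (Sb.cons (nat_lit 4) (nat_lit 0) (nat_lit 2) (Sb.cons (nat_lit 12) (nat_lit 2) (nat_lit 3) Sb.nil)) (Bl.r Y1_4_4_5 (nat_lit 5) Bl.nil)) (Sl.cons (Sd.mk (nat_lit 10) (nat_lit 8) (nat_lit 31) (nat_lit 6) (Sb.cons (nat_lit 0) (nat_lit 0) (nat_lit 1) (Sb.cons (nat_lit 12) (nat_lit 1) (nat_lit 5) Sb.nil)) (Bl.c Y1_4_4_5 (nat_lit 10) (nat_lit 4) Bl.nil)) (Sl.cons (Sd.mk (nat_lit 12) (nat_lit 12) (nat_lit 37) (nat_lit 12) (Sb.cons (nat_lit 0) (nat_lit 0) (nat_lit 5) (Sb.cons (nat_lit 4) (nat_lit 5) (nat_lit 3) (Sb.cons (nat_lit 8) (nat_lit 8) (nat_lit 4) Sb.nil))) (Bl.r Y1_4_6_6 (nat_lit 6) (Bl.c Y1_4_6_6 (nat_lit 24) (nat_lit 6) Bl.nil)))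 (Sl.cons (Sd.mk (nat_lit 14) (nat_lit 12) (nat_lit 49) (nat_lit 11) (Sb.cons (nat_lit 0) (nat_lit 0) (nat_lit 4) (Sb.cons (nat_lit 4) (nat_lit 4) (nat_lit 3) (Sb.cons (nat_lit 8) (nat_lit 7) (nat_lit 4) Sb.nil))) (Bl.r Y1_4_7_7 (nat_lit 7) (Bl.c Y1_4_7_7 (nat_lit 22) (nat_lit 7) Bl.nil))) Sl.nil)))))))))
noncomputable def CL1 : Cl := (Cl.cons C1_0 (Cl.cons C1_1 (Cl.cons C1_2 (Cl.cons C1_3 (Cl.cons C1_4 Cl.nil)))))
noncomputable def AL1_0 : Nat := (nat_lit 0x2c65d)
noncomputable def A41_0 : Nat := (nat_lit 0xc641)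
noncomputable def IX1_0 : Nat := (nat_lit 0x5000000000000400000000000000000000000000000000000000000000000000030000000000002000000000000000000000000000000000000001000000000000000000000000000000000000000000000000000000000000000000000000000000)
noncomputable def OL1_0 : Nat := (nat_lit 0x1e00380050009000c0000)
noncomputable def AL1_1 : Nat := (nat_lit 0x51236624f411)
noncomputable def A41_1 : Nat := (nat_lit 0x112064245411)
noncomputable def IX1_1 : Nat := (nat_lit 0xc000000000000000000000000000000000000000000000000000b00000000000000000000000000000000000000a0000000000000000000000000000000000000000000000000000000000000000000000000000000000000000009000000000000800000000000000000000000000000000000000700000000000000000000000000000000000000000000000000000000000000006000000000000000000000000000000000000005000000000000000000000000000000000000000000000000000400000000000000000000000003000000000000000000000000020000000000000000000000000000000000000000000000000000000000000000000000000000010000000000000000000000000000000000000000000000000000)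
noncomputable def OL1_1 : Nat := (nat_lit 0xb00140025003c007400d001500240038006000a00080000)
noncomputable def AL1_2 : Nat := (nat_lit 0x77b83e)
noncomputable def A41_2 : Nat := (nat_lit 0x73983e)
noncomputable def IX1_2 : Nat := (nat_lit 0xc000000000000b000000000000a00000000000000000000000000000000000000900000000000080000000000007000000000000000000000000000000000000006000000000000500000000000000000000000000000000000000000000000000000000000000000000000000000400000000000030000000000002000000000000100000000000000000000000000)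
noncomputable def OL1_2 : Nat := (nat_lit 0x5800a801400220040007800c00160014002000300040004)
noncomputable def AL1_3 : Nat := (nat_lit 0)
noncomputable def A41_3 : Nat := (nat_lit 0)
noncomputable def IX1_3 : Nat := (nat_lit 0)
noncomputable def OL1_3 : Nat := (nat_lit 0)
noncomputable def AL1_4 : Nat := (nat_lit 0x34f6dfc001b2e6f6deff1083603e048016fffff04f7ff)
noncomputable def A41_4 : Nat := (nat_lit 0x30320fc0013020168af31080602a040012f98f3049667)
noncomputable def IX1_4 : Nat := (nat_lit 0x3b000000000003a0000000000000000000000000000000000000000000000000000000000000000000000000000000000000000039000000000003800000000000000000000000000000000000003700000000000000000000000000000000000000000000000000000000000000000000000000003600000000000350000000000034000000000003300000000000320000000000031000000000000000000000000000000000000000000000000000000000000000000000000000000000000000000000000000000000000000000000000000000000000000000000000000000000000000000000000000000000000300000000000000000000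0000000000000000002f000000000002e000000000000000000000000000000000000000000000000000000000000000000000000000000000000000002d00000000000000000000000000000000000000000000000000000000000000000000000000000000000000000000000000000000000000000002c0000000000000000000000002b000000000002a0000000000000000000000002900000000000000000000000000000000000000000000000000280000000000000000000000002700000000000000000000000026000000000002500000000000240000000000023000000000000000000000000000000000000022000000000002100000000000000000000000000000000000000000000000000200000000000000000000000000000000000000000000000000000000000000001f00000000000000000000000000000000000000000000000000000000000000000000000000000000000000000000000000000000000000000001e000000000001d0000000000000000000000000000000000000000000000000000000000000000000000000000000000000000000000000000001c0000000000000000000000001b0000000000000000000000001a00000000000000000000000000000000000000000000000000000000000000000000000000000000000000000190000000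00000000000000000000000000000000000000000000000000000000000000000000000000000000000000000000000000000000000000000000000000000000000000000000000000000000000000000000000000000180000000000000000000000000000000000000170000000000000000000000001600000000000150000000000014000000000001300000000000120000000000000000000000000000000000000110000000000010000000000000000000000000000000000000000000000000000f000000000000e000000000000d000000000000c00000000000000000000000000000000000000b000000000000a000000000000000000000000000000000000000000000000000000000000000000000000000009000000000000000000000000000000000000008000000000000000000000000000000000000007000000000000000000000000060000000000005000000000000000000000000000000000000004000000000000300000000000000000000000000000000000000200000000000010000000000000)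
noncomputable def OL1_4 : Nat := (nat_lit 0x5880b0015202a0052809f013c027404e009b013402300448088010201e003b007500e601bc036806b00d401a4034006500c8018002d805200a201240238045007c00c0016802b005400a401400270048008c00f801e003a007000c80180024003c006000a00120018002800200020000)
noncomputable def TL1 : Tl := (Tl.cons (Tr.mk AL1_0 A41_0 IX1_0 OL1_0) (Tl.cons (Tr.mk AL1_1 A41_1 IX1_1 OL1_1) (Tl.cons (Tr.mk AL1_2 A41_2 IX1_2 OL1_2) (Tl.cons (Tr.mk AL1_3 A41_3 IX1_3 OL1_3) (Tl.cons (Tr.mk AL1_4 A41_4 IX1_4 OL1_4) Tl.nil)))))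
noncomputable def ZL1_0 : Zl := (Zl.cons (nat_lit 0) (nat_lit 0) (nat_lit 6) (Zl.cons (nat_lit 0) (nat_lit 0) (nat_lit 13) (Zl.cons (nat_lit 0) (nat_lit 0) (nat_lit 13) (Zl.cons (nat_lit 0) (nat_lit 0) (nat_lit 0) (Zl.cons (nat_lit 0) (nat_lit 0) (nat_lit 60) Zl.nil)))))
noncomputable def ZZ1 : ZZ := (ZZ.cons ZL1_0 ZZ.nil)
noncomputable def C2_0 : Cd := (Cd.mk (nat_lit 0) (nat_lit 5) (nat_lit 320) (nat_lit 0) (nat_lit 0) (nat_lit 0) (nat_lit 0) Sl.nil)
noncomputable def C2_1 : Cd := (Cd.mk (nat_lit 0) (nat_lit 6) (nat_lit 546) (nat_lit 0) (nat_lit 0) (nat_lit 0) (nat_lit 0) Sl.nil)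
noncomputable def C2_2 : Cd := (Cd.mk (nat_lit 0) (nat_lit 7) (nat_lit 772) (nat_lit 0) (nat_lit 0) (nat_lit 0) (nat_lit 0) Sl.nil)
noncomputable def C2_3 : Cd := (Cd.mk (nat_lit 0) (nat_lit 11) (nat_lit 11) (nat_lit 0) (nat_lit 0) (nat_lit 0) (nat_lit 0) Sl.nil)
noncomputable def C2_4 : Cd := (Cd.mk (nat_lit 0) (nat_lit 4) (nat_lit 4369) (nat_lit 0) (nat_lit 0) (nat_lit 0) (nat_lit 0) Sl.nil)
noncomputable def CL2 : Cl := (Cl.cons C2_0 (Cl.cons C2_1 (Cl.cons C2_2 (Cl.cons C2_3 (Cl.cons C2_4 Cl.nil)))))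
noncomputable def AL2_0 : Nat := (nat_lit 0)
noncomputable def A42_0 : Nat := (nat_lit 0)
noncomputable def IX2_0 : Nat := (nat_lit 0)
noncomputable def OL2_0 : Nat := (nat_lit 0)
noncomputable def AL2_1 : Nat := (nat_lit 0)
noncomputable def A42_1 : Nat := (nat_lit 0)
noncomputable def IX2_1 : Nat := (nat_lit 0)
noncomputable def OL2_1 : Nat := (nat_lit 0)
noncomputable def AL2_2 : Nat := (nat_lit 0xfff)
noncomputable def A42_2 : Nat := (nat_lit 0)
noncomputable def IX2_2 : Nat := (nat_lit 0)
noncomputable def OL2_2 : Nat := (nat_lit 0)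
noncomputable def AL2_3 : Nat := (nat_lit 0)
noncomputable def A42_3 : Nat := (nat_lit 0)
noncomputable def IX2_3 : Nat := (nat_lit 0)
noncomputable def OL2_3 : Nat := (nat_lit 0)
noncomputable def AL2_4 : Nat := (nat_lit 0)
noncomputable def A42_4 : Nat := (nat_lit 0)
noncomputable def IX2_4 : Nat := (nat_lit 0)
noncomputable def OL2_4 : Nat := (nat_lit 0)
noncomputable def TL2 : Tl := (Tl.cons (Tr.mk AL2_0 A42_0 IX2_0 OL2_0) (Tl.cons (Tr.mk AL2_1 A42_1 IX2_1 OL2_1) (Tl.cons (Tr.mk AL2_2 A42_2 IX2_2 OL2_2) (Tl.cons (Tr.mk AL2_3 A42_3 IX2_3 OL2_3) (Tl.cons (Tr.mk AL2_4 A42_4 IX2_4 OL2_4) Tl.nil)))))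
def wf0_0 : wfC (nat_lit 37) (nat_lit 2) C0_0 = true := by decide +kernel
def pl0_0 : plCk (nat_lit 37) (nat_lit 2) (nat_lit 11) (nat_lit 0) (nat_lit 0) (nat_lit 7) (nat_lit 5) (nat_lit 4) (nat_lit 0) nl0 CL0 = true := by decide +kernel
def wf0_1 : wfC (nat_lit 37) (nat_lit 2) C0_1 = true := by decide +kernel
def pl0_1 : plCk (nat_lit 37) (nat_lit 2) (nat_lit 11) (nat_lit 0) (nat_lit 0) (nat_lit 7) (nat_lit 5) (nat_lit 4) (nat_lit 1) nl0 CL0 = true := by decide +kernel
def wf0_2 : wfC (nat_lit 37) (nat_lit 2) C0_2 = true := by decide +kernel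
def pl0_2 : plCk (nat_lit 37) (nat_lit 2) (nat_lit 11) (nat_lit 0) (nat_lit 0) (nat_lit 7) (nat_lit 5) (nat_lit 4) (nat_lit 2) nl0 CL0 = true := by decide +kernel
def wf0_4 : wfC (nat_lit 37) (nat_lit 2) C0_4 = true := by decide +kernel
def pl0_4 : plCk (nat_lit 37) (nat_lit 2) (nat_lit 11) (nat_lit 0) (nat_lit 0) (nat_lit 7) (nat_lit 5) (nat_lit 4) (nat_lit 4) nl0 CL0 = true := by decide +kernel
def ti0_0 : tileCk (nat_lit 37) (nat_lit 2) (nat_lit 1) (nat_lit 1) (nat_lit 24) (nat_lit 11) (nat_lit 5) ZL0_0 CL0 = true := by decide +kernel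
def zl0_0 : zlOK (nat_lit 24) ZL0_0 = true := by decide +kernel
def tc0_0 : tiCov (nat_lit 1) (nat_lit 0) ZZ0 C0_0 = true := by decide +kernel
def tc0_1 : tiCov (nat_lit 1) (nat_lit 1) ZZ0 C0_1 = true := by decide +kernel
def tc0_2 : tiCov (nat_lit 1) (nat_lit 2) ZZ0 C0_2 = true := by decide +kernel
def tc0_4 : tiCov (nat_lit 1) (nat_lit 4) ZZ0 C0_4 = true := by decide +kernel
def wf1_0 : wfC (nat_lit 13) (nat_lit 2) C1_0 = true := by decide +kernel
def rf1_0 : rfCk (nat_lit 37) (nat_lit 2) (nat_lit 13) (nat_lit 2) (nat_lit 9) (nat_lit 0) (nat_lit 0) TL1 CL0 CL1 = true := by decide +kernel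
def st1_0_0 : starCk (nat_lit 13) (nat_lit 2) (nat_lit 1) (nat_lit 1) (nat_lit 2) (nat_lit 4) (nat_lit 256) C1_0 = true := by decide +kernel
def sc1_0 : stCov (nat_lit 2) (nat_lit 4) (Rl.cons (nat_lit 4) (nat_lit 2) Rl.nil) C1_0 = true := by decide +kernel
def wf1_1 : wfC (nat_lit 13) (nat_lit 2) C1_1 = true := by decide +kernel
def rf1_1 : rfCk (nat_lit 37) (nat_lit 2) (nat_lit 13) (nat_lit 2) (nat_lit 9) (nat_lit 0) (nat_lit 1) TL1 CL0 CL1 = true := by decide +kernel
def st1_1_0 : starCk (nat_lit 13) (nat_lit 2) (nat_lit 1) (nat_lit 1) (nat_lit 2) (nat_lit 5) (nat_lit 16) C1_1 = true := by decide +kernel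
def sc1_1 : stCov (nat_lit 1) (nat_lit 5) (Rl.cons (nat_lit 5) (nat_lit 2) Rl.nil) C1_1 = true := by decide +kernel
def wf1_2 : wfC (nat_lit 13) (nat_lit 2) C1_2 = true := by decide +kernel
def rf1_2 : rfCk (nat_lit 37) (nat_lit 2) (nat_lit 13) (nat_lit 2) (nat_lit 9) (nat_lit 0) (nat_lit 2) TL1 CL0 CL1 = true := by decide +kernel
def st1_2_0 : starCk (nat_lit 13) (nat_lit 2) (nat_lit 1) (nat_lit 1) (nat_lit 2) (nat_lit 4) (nat_lit 1) C1_2 = true := by decide +kernel
def sc1_2 : stCov (nat_lit 0) (nat_lit 4) (Rl.cons (nat_lit 4) (nat_lit 2) Rl.nil) C1_2 = true := by decide +kernel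
def wf1_4 : wfC (nat_lit 13) (nat_lit 2) C1_4 = true := by decide +kernel
def rf1_4 : rfCk (nat_lit 37) (nat_lit 2) (nat_lit 13) (nat_lit 2) (nat_lit 9) (nat_lit 0) (nat_lit 4) TL1 CL0 CL1 = true := by decide +kernel
def st1_4_0 : starCk (nat_lit 13) (nat_lit 2) (nat_lit 1) (nat_lit 1) (nat_lit 5) (nat_lit 26) (nat_lit 256) C1_4 = true := by decide +kernel
def sc1_4 : stCov (nat_lit 2) (nat_lit 26) (Rl.cons (nat_lit 26) (nat_lit 5) Rl.nil) C1_4 = true := by decide +kernel
def wf0_3 : wfC (nat_lit 37) (nat_lit 2) C0_3 = true := by decide +kernel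
def pl0_3 : plCk (nat_lit 37) (nat_lit 2) (nat_lit 11) (nat_lit 0) (nat_lit 0) (nat_lit 7) (nat_lit 5) (nat_lit 4) (nat_lit 3) nl0 CL0 = true := by decide +kernel
def sc0_0 : stCov (nat_lit 1) (nat_lit 0) (Rl.cons (nat_lit 0) (nat_lit 18) Rl.nil) C0_0 = true := by decide +kernel
def sc0_1 : stCov (nat_lit 0) (nat_lit 0) (Rl.cons (nat_lit 0) (nat_lit 52) Rl.nil) C0_1 = true := by decide +kernel
def sc0_2 : stCov (nat_lit 0) (nat_lit 0) (Rl.cons (nat_lit 0) (nat_lit 24) Rl.nil) C0_2 = true := by decide +kernel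
def sc0_3 : stCov (nat_lit 0) (nat_lit 0) Rl.nil C0_3 = true := by decide +kernel
def sc0_4 : stCov (nat_lit 0) (nat_lit 0) (Rl.cons (nat_lit 0) (nat_lit 178) Rl.nil) C0_4 = true := by decide +kernel
def tc0_3 : tiCov (nat_lit 1) (nat_lit 3) ZZ0 C0_3 = true := by decide +kernel
def wf1_3 : wfC (nat_lit 13) (nat_lit 2) C1_3 = true := by decide +kernel
def rf1_3 : rfCk (nat_lit 37) (nat_lit 2) (nat_lit 13) (nat_lit 2) (nat_lit 9) (nat_lit 0) (nat_lit 3) TL1 CL0 CL1 = true := by decide +kernel
def zl1_0 : zlOK (nat_lit 60) ZL1_0 = true := by decide +kernel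
def sc1_3 : stCov (nat_lit 0) (nat_lit 0) Rl.nil C1_3 = true := by decide +kernel
def tc1_0 : tiCov (nat_lit 1) (nat_lit 0) ZZ1 C1_0 = true := by decide +kernel
def tc1_1 : tiCov (nat_lit 1) (nat_lit 1) ZZ1 C1_1 = true := by decide +kernel
def tc1_2 : tiCov (nat_lit 1) (nat_lit 2) ZZ1 C1_2 = true := by decide +kernel
def tc1_3 : tiCov (nat_lit 1) (nat_lit 3) ZZ1 C1_3 = true := by decide +kernel
def tc1_4 : tiCov (nat_lit 1) (nat_lit 4) ZZ1 C1_4 = true := by decide +kernel
def wf2_0 : wfC (nat_lit 1) (nat_lit 1) C2_0 = true := by decide +kernel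
def wf2_1 : wfC (nat_lit 1) (nat_lit 1) C2_1 = true := by decide +kernel
def wf2_2 : wfC (nat_lit 1) (nat_lit 1) C2_2 = true := by decide +kernel
def wf2_3 : wfC (nat_lit 1) (nat_lit 1) C2_3 = true := by decide +kernel
def wf2_4 : wfC (nat_lit 1) (nat_lit 1) C2_4 = true := by decide +kernel
def rf2_0 : rfCk (nat_lit 13) (nat_lit 2) (nat_lit 1) (nat_lit 1) (nat_lit 9) (nat_lit 0) (nat_lit 0) TL2 CL1 CL2 = true := by decide +kernel
def rf2_1 : rfCk (nat_lit 13) (nat_lit 2) (nat_lit 1) (nat_lit 1) (nat_lit 9) (nat_lit 0) (nat_lit 1) TL2 CL1 CL2 = true := by decide +kernel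
def rf2_2 : rfCk (nat_lit 13) (nat_lit 2) (nat_lit 1) (nat_lit 1) (nat_lit 9) (nat_lit 0) (nat_lit 2) TL2 CL1 CL2 = true := by decide +kernel
def rf2_3 : rfCk (nat_lit 13) (nat_lit 2) (nat_lit 1) (nat_lit 1) (nat_lit 9) (nat_lit 0) (nat_lit 3) TL2 CL1 CL2 = true := by decide +kernel
def rf2_4 : rfCk (nat_lit 13) (nat_lit 2) (nat_lit 1) (nat_lit 1) (nat_lit 9) (nat_lit 0) (nat_lit 4) TL2 CL1 CL2 = true := by decide +kernel
def de2_0 : deadCk (nat_lit 1) (nat_lit 1) C2_0 = true := by decide +kernel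
def de2_1 : deadCk (nat_lit 1) (nat_lit 1) C2_1 = true := by decide +kernel
def de2_2 : deadCk (nat_lit 1) (nat_lit 1) C2_2 = true := by decide +kernel
def de2_3 : deadCk (nat_lit 1) (nat_lit 1) C2_3 = true := by decide +kernel
def de2_4 : deadCk (nat_lit 1) (nat_lit 1) C2_4 = true := by decide +kernel

end Pool.Agent.NNr.R11_6_13_14
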